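import Pool.Agent.N475.Cusp.G5
import Pool.Agent.N212.Stm

/-!
An ample line bundle generates the perfect complexes on a compact noetherian scheme.
-/

set_option autoImplicit false

universe u

open CategoryTheory Limits TopologicalSpace AlgebraicGeometry Opposite Pretriangulated

namespace Pool.Agent.N475.Cusp

open Pool.Agent.W506 Pool.Agent.W456 Pool.Agent.R924

set_option backward.isDefEq.respectTransparency false

attribute [local instance] HasDerivedCategory.standard Abelian.hasFiniteBiproducts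

variable {X : Scheme.{u}} {J : Type} {F : Frame X J} {α : F.Div}

/-- Line bundles of divisors are perfect. -/
lemma isPerfect_lb [Finite J] (δ : F.Div) : isPerfect X (sg (Frame.lb δ)) := by
  apply ConeGood.isPerfect
  apply coneGood_of_basis
  intro x
  obtain ⟨j, hj⟩ := F.cover x
  exact ⟨F.U j, hj, 1, _, Frame.isGen_lbE δ j⟩

section

variable [Finite J] [IsLocallyNoetherian X] {T : ObjectProperty (DerivedCategory X.Modules)}
  [T.IsTriangulated] [T.IsClosedUnderIsomorphisms]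

/-- One step of the resolution. -/
theorem step (A : Frame.Ample F α) (hT : ∀ d : ℕ, T (sg (Frame.lb ((α ^ d)⁻¹))))
    (M : X.Modules) (hM : CohAll M) :
    ∃ (M' : X.Modules) (_ : CohAll M') (ξ : sg M ⟶ (sg M')⟦(1 : ℤ)⟧), T.trW ξ := by
  obtain ⟨Q, φ, hQ, -, hTQ, hφ⟩ := A.exists_epi hT M (fun j => hM (F.U j) (A.aff j))
  have hS := kerSC_shortExact φ
  have hQ' : CohAll Q := cohAll_of_local fun x => by
    obtain ⟨j, hj⟩ := F.cover x
    exact ⟨F.U j, hj, A.aff j, (hQ j).1, (hQ j).2⟩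
  exact ⟨kernel φ, CohAll.ker φ hQ' hM, hS.singleδ,
    (ObjectProperty.trW_iff_of_distinguished' T _
      (rot_of_distTriang _ hS.singleTriangle_distinguished)).2 hTQ⟩

/-- Iterated resolution. -/
theorem steps (A : Frame.Ample F α) (hT : ∀ d : ℕ, T (sg (Frame.lb ((α ^ d)⁻¹)))) (n : ℕ) :
    ∀ (M : X.Modules) (_ : CohAll M),
    ∃ (M' : X.Modules) (_ : CohAll M') (ξ : sg M ⟶ (sg M')⟦(n : ℤ)⟧), T.trW ξ := by
  induction n with
  | zero =>
    intro M hM
    exact ⟨M, hM, (shiftFunctorZero (DerivedCategory X.Modules) ℤ).inv.app _,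
      MorphismProperty.of_isIso _ _⟩
  | succ n ih =>
    intro M hM
    obtain ⟨M₁, hM₁, ξ₁, h₁⟩ := ih M hM
    obtain ⟨M₂, hM₂, ξ₂, h₂⟩ := step A hT M₁ hM₁
    refine ⟨M₂, hM₂, ξ₁ ≫ ξ₂⟦(n : ℤ)⟧' ≫
      (shiftFunctorAdd' (DerivedCategory X.Modules) (1 : ℤ) (n : ℤ) ((n + 1 : ℕ) : ℤ)
        (by push_cast; ring)).inv.app (sg M₂), ?_⟩
    exact T.trW.comp_mem _ _ h₁ (T.trW.comp_mem _ _ (ObjectProperty.trW.shift h₂ _)
      (MorphismProperty.of_isIso _ _))

/-- Filtered objects can be pushed to lower degrees. -/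
theorem lower (A : Frame.Ample F α) (hT : ∀ d : ℕ, T (sg (Frame.lb ((α ^ d)⁻¹))))
    (hK : T ≤ KP X) {c₀ : ℤ} {G : DerivedCategory X.Modules} (hG : Fil c₀ G) :
    ∀ c : ℤ, ∃ (G' : DerivedCategory X.Modules) (_ : Fil c G') (γ : G ⟶ G'), T.trW γ := by
  induction hG with
  | zero Y h => exact fun c => ⟨Y, Fil.zero _ h, 𝟙 _, MorphismProperty.of_isIso _ _⟩
  | single M hM j hj Y i =>
    intro c
    obtain ⟨M', hM', ξ, hξ⟩ := steps (T := T) A hT (j - c).toNat M hM
    refine ⟨((sg M')⟦((j - c).toNat : ℤ)⟧)⟦-j⟧, ?_, i.hom ≫ ξ⟦-j⟧', ?_⟩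
    · refine Fil.single M' hM' (j - ((j - c).toNat : ℤ)) (by lia) _
        ((shiftFunctorAdd' (DerivedCategory X.Modules) ((j - c).toNat : ℤ) (-j)
          (-(j - ((j - c).toNat : ℤ))) (by ring)).app (sg M')).symm
    · exact T.trW.comp_mem _ _ (MorphismProperty.of_isIso _ _) (ObjectProperty.trW.shift hξ _)
  | ext D hD h₁ h₃ Y e ih₁ ih₃ =>
    intro c
    obtain ⟨G₃, hG₃, y, hy⟩ := ih₃ c
    obtain ⟨P, p, q, mem, hP⟩ := (ObjectProperty.trW_iff' T y).1 hy
    obtain ⟨cP, hcP⟩ := hK _ hP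
    obtain ⟨G₁, hG₁, x, hx⟩ := ih₁ (min c (cP + 1))
    have hG₁' : Fil (min c (cP + 1) - 1) (G₁⟦(1 : ℤ)⟧) := hG₁.shift 1
    have h0 : p ≫ (D.mor₃ ≫ x⟦(1 : ℤ)⟧') = 0 :=
      hcP.eq_zero (hG₁'.mono (by have := min_le_right c (cP + 1); lia)) _
    obtain ⟨h', hh'⟩ := Triangle.yoneda_exact₂ _ mem _ h0
    obtain ⟨C, u, v, hT₂⟩ := distinguished_cocone_triangle h'
    have hT₁ := rot_of_distTriang _ (rot_of_distTriang _ hD)
    obtain ⟨w, hw, -, -⟩ := MorphismProperty.compatible_with_triangulation (W := T.trW)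
      D.rotate.rotate (Triangle.mk h' u v) hT₁ hT₂ y (x⟦(1 : ℤ)⟧') hy
      (ObjectProperty.trW.shift hx 1) hh'
    have hC : Fil (c - 1) C := by
      refine Fil.ext _ (rot_of_distTriang _ hT₂) ?_ ?_ _ (Iso.refl _)
      · exact hG₁'.mono (by have := min_le_left c (cP + 1); lia)
      · exact hG₃.shift 1
    let s := (shiftEquiv (DerivedCategory X.Modules) (1 : ℤ)).unitIso.app D.obj₂
    refine ⟨C⟦(-1 : ℤ)⟧, (hC.shift (-1)).mono (by lia), e.hom ≫ s.hom ≫ w⟦(-1 : ℤ)⟧', ?_⟩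
    exact T.trW.comp_mem _ _ (MorphismProperty.of_isIso _ _)
      (T.trW.comp_mem _ _ (MorphismProperty.of_isIso _ _) (ObjectProperty.trW.shift hw _))

/-- The main theorem, for triangulated subcategories consisting of objects without morphisms to
low coherent modules. -/
theorem main [CompactSpace X] [T.IsStableUnderRetracts] (A : Frame.Ample F α)
    (hT : ∀ d : ℕ, T (sg (Frame.lb ((α ^ d)⁻¹)))) (hK : T ≤ KP X) : isPerfect X ≤ T := by
  intro E hE
  obtain ⟨c₀, hc₀⟩ := fp_of_dCoh (dCoh_of_isPerfect hE)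
  obtain ⟨c, hc⟩ := kp_of_isPerfect A hE
  obtain ⟨G, hG, γ, hγ⟩ := lower (T := T) A hT hK hc₀ c
  have h0 : γ = 0 := hc.eq_zero hG γ
  rw [h0] at hγ
  exact mem_of_trW_zero T hγ

end

theorem gen [Finite J] [CompactSpace X] [IsLocallyNoetherian X] (A : Frame.Ample F α)
    (T : ObjectProperty (DerivedCategory X.Modules)) [T.IsTriangulated]
    [T.IsClosedUnderIsomorphisms] [T.IsStableUnderRetracts]
    (hT : ∀ d : ℕ, T (sg (Frame.lb ((α ^ d)⁻¹)))) : isPerfect X ≤ T := by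
  have hr : (T ⊓ KP X).IsStableUnderRetracts := ⟨fun r h =>
    ⟨T.prop_of_retract r h.1, (KP X).prop_of_retract r h.2⟩⟩
  have h1 : isPerfect X ≤ T ⊓ KP X := main (T := T ⊓ KP X) A
    (fun d => ⟨hT d, kp_of_isPerfect A (isPerfect_lb _)⟩) inf_le_right
  exact h1.trans inf_le_left

/-- An ample line bundle generates the perfect complexes. -/
theorem stmGen : Pool.Agent.N212.StmGen := by
  intro X J hJ F α hX hN A T h1 h2 h3 h4
  exact gen A T h4

end Pool.Agent.N475.Cusp
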