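import Pool.Agent.R924.P6

/-!
Vanishing of morphisms from the sheaf representing sections over an affine open.
-/

set_option autoImplicit false

universe u

open CategoryTheory Limits TopologicalSpace AlgebraicGeometry Opposite Pretriangulated

namespace Pool.Agent.N475.Cusp

open Pool.Agent.W506 Pool.Agent.W456 Pool.Agent.R924

set_option backward.isDefEq.respectTransparency false

attribute [local instance] HasDerivedCategory.standard HasExt.standard Abelian.hasFiniteBiproducts

variable {X : Scheme.{u}}

/-- The short exact sequence of a monomorphism. -/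
lemma shortExact_cokernel {M I : X.Modules} (i : M ⟶ I) [Mono i] :
    (ShortComplex.mk i (cokernel.π i) (cokernel.condition i)).ShortExact :=
  { exact := ShortComplex.exact_of_g_is_cokernel _ (cokernelIsCokernel i) }

theorem ext_zero {V : X.Opens} (hV : IsAffineOpen V) (n : ℕ) : ∀ (M : X.Modules), SumOn M V →
    ∀ x : Abelian.Ext (LU V) M (n + 1), x = 0 := by
  induction n with
  | zero =>
    intro M hM x
    have hS := shortExact_cokernel (Injective.ι M)
    have h1 := Abelian.Ext.eq_zero_of_injective
      (x.comp (Abelian.Ext.mk₀ (Injective.ι M)) (add_zero 1))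
    obtain ⟨x₃, hx₃⟩ := Abelian.Ext.covariant_sequence_exact₁ (LU V) hS x h1 (n₀ := 0) rfl
    obtain ⟨g, rfl⟩ := (Abelian.Ext.mk₀_bijective (LU V) _).2 x₃
    obtain ⟨t, ht⟩ := ap_surjective_of_sumOn _ hS hM hV le_rfl (ap g V (gen V))
    have h2 : g = secHom t ≫ cokernel.π (Injective.ι M) := by
      apply lu_hom_ext
      rw [ap_comp, ap_secHom_gen]
      exact ht.symm
    rw [← hx₃, h2, ← Abelian.Ext.mk₀_comp_mk₀, Abelian.Ext.comp_assoc_of_second_deg_zero]
    have h3 : (Abelian.Ext.mk₀ (cokernel.π (Injective.ι M))).comp hS.extClass (zero_add 1) = 0 :=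
      hS.comp_extClass
    rw [h3, Abelian.Ext.comp_zero]
  | succ n ih =>
    intro M hM x
    have hS := shortExact_cokernel (Injective.ι M)
    have h1 := Abelian.Ext.eq_zero_of_injective
      (x.comp (Abelian.Ext.mk₀ (Injective.ι M)) (add_zero _))
    obtain ⟨x₃, hx₃⟩ := Abelian.Ext.covariant_sequence_exact₁ (LU V) hS x h1 (n₀ := n + 1) rfl
    have h2 : SumOn (cokernel (Injective.ι M)) V :=
      sumOn_coker _ hS hM (sumOn_of_flasque (flasque_of_injective _) _)
    rw [← hx₃, ih _ h2 x₃, Abelian.Ext.zero_comp]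

/-- Higher cohomology of affine opens vanishes. -/
theorem hom_zero {V : X.Opens} (hV : IsAffineOpen V) {M : X.Modules} (hM : SumOn M V) (n : ℕ)
    (f : sg (LU V) ⟶ (sg M)⟦((n + 1 : ℕ) : ℤ)⟧) : f = 0 := by
  have h1 := ext_zero hV n M hM (Abelian.Ext.homEquiv.symm f)
  have h2 := congrArg (Abelian.Ext.homAddEquiv) h1
  rw [map_zero] at h2
  have h3 : Abelian.Ext.homAddEquiv (Abelian.Ext.homEquiv.symm f) = f :=
    Equiv.apply_symm_apply Abelian.Ext.homEquiv f
  exact h3.symm.trans h2

end Pool.Agent.N475.Cusp
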