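import Pool.Agent.N475.Cusp.G1

/-!
Filtered objects with coherent pieces, and objects without morphisms to low filtered objects.
-/

set_option autoImplicit false

universe u

open CategoryTheory Limits TopologicalSpace AlgebraicGeometry Opposite Pretriangulated
open ZeroObject

namespace Pool.Agent.N475.Cusp

open Pool.Agent.W506 Pool.Agent.W456 Pool.Agent.R924

attribute [local instance] HasDerivedCategory.standard Abelian.hasFiniteBiproducts

variable {X : Scheme.{u}}

/-- Objects with a finite filtration with pieces coherent modules in degrees at most `c`. -/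
inductive Fil (c : ℤ) : DerivedCategory X.Modules → Prop
  | zero (Y : DerivedCategory X.Modules) (h : IsZero Y) : Fil c Y
  | single (M : X.Modules) (hM : CohAll M) (j : ℤ) (hj : j ≤ c)
      (Y : DerivedCategory X.Modules) (e : Y ≅ (sg M)⟦-j⟧) : Fil c Y
  | ext (T : Triangle (DerivedCategory X.Modules))
      (hT : T ∈ distTriang (DerivedCategory X.Modules)) (h₁ : Fil c T.obj₁) (h₃ : Fil c T.obj₃)
      (Y : DerivedCategory X.Modules) (e : Y ≅ T.obj₂) : Fil c Y

lemma Fil.of_iso {c : ℤ} {Y Y' : DerivedCategory X.Modules} (h : Fil c Y) (e : Y' ≅ Y) :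
    Fil c Y' := by
  cases h with
  | zero _ h => exact Fil.zero _ (h.of_iso e)
  | single M hM j hj _ i => exact Fil.single M hM j hj _ (e ≪≫ i)
  | ext T hT h₁ h₃ _ i => exact Fil.ext T hT h₁ h₃ _ (e ≪≫ i)

lemma Fil.mono {c c' : ℤ} (hc : c ≤ c') {Y : DerivedCategory X.Modules} (h : Fil c Y) :
    Fil c' Y := by
  induction h with
  | zero Y h => exact Fil.zero _ h
  | single M hM j hj Y i => exact Fil.single M hM j (hj.trans hc) _ i
  | ext T hT h₁ h₃ Y i ih₁ ih₃ => exact Fil.ext T hT ih₁ ih₃ _ i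

lemma Fil.shift {c : ℤ} {Y : DerivedCategory X.Modules} (h : Fil c Y) (n : ℤ) :
    Fil (c - n) (Y⟦n⟧) := by
  induction h with
  | zero Y h => exact Fil.zero _ (Functor.map_isZero _ h)
  | single M hM j hj Y i =>
    refine Fil.single M hM (j - n) (by lia) _ ?_
    exact (shiftFunctor _ n).mapIso i ≪≫
      ((shiftFunctorAdd' (DerivedCategory X.Modules) (-j) n (-(j - n)) (by ring)).app (sg M)).symm
  | ext T hT h₁ h₃ Y i ih₁ ih₃ =>
    exact Fil.ext _ (Triangle.shift_distinguished _ hT n) ih₁ ih₃ _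
      ((shiftFunctor _ n).mapIso i)

/-- No morphisms to coherent modules in degrees at most `c`. -/
def Kills (c : ℤ) (P : DerivedCategory X.Modules) : Prop :=
  ∀ (M : X.Modules) (_ : CohAll M) (j : ℤ) (_ : j ≤ c) (f : P ⟶ (sg M)⟦-j⟧), f = 0

lemma Kills.eq_zero {c : ℤ} {P Y : DerivedCategory X.Modules} (hP : Kills c P) (hY : Fil c Y)
    (f : P ⟶ Y) : f = 0 := by
  induction hY with
  | zero Y h => exact h.eq_of_tgt _ _
  | single M hM j hj Y i =>
    rw [← cancel_mono i.hom, zero_comp]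
    exact hP M hM j hj _
  | ext T hT h₁ h₃ Y i ih₁ ih₃ =>
    have h1 : (f ≫ i.hom) ≫ T.mor₂ = 0 := ih₃ _
    obtain ⟨g, hg⟩ := Triangle.coyoneda_exact₂ _ hT (f ≫ i.hom) h1
    rw [← cancel_mono i.hom, zero_comp, hg, ih₁ g, zero_comp]

lemma Kills.mono {c c' : ℤ} (hc : c' ≤ c) {P : DerivedCategory X.Modules} (h : Kills c P) :
    Kills c' P := fun M hM j hj f => h M hM j (hj.trans hc) f

lemma Kills.of_retract {c : ℤ} {P P' : DerivedCategory X.Modules} (r : Retract P' P)
    (h : Kills c P) : Kills c P' := by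
  intro M hM j hj f
  have h1 := h M hM j hj (r.r ≫ f)
  calc f = r.i ≫ r.r ≫ f := by rw [← Category.assoc, r.retract, Category.id_comp]
    _ = 0 := by rw [h1, comp_zero]

lemma Kills.shift {c : ℤ} {P : DerivedCategory X.Modules} (h : Kills c P) (n : ℤ) :
    Kills (c - n) (P⟦n⟧) := by
  intro M hM j hj f
  have h1 : Fil c (((sg M)⟦-j⟧)⟦-n⟧) :=
    ((Fil.single (c := c - n) M hM j hj _ (Iso.refl _)).shift (-n)).mono (by lia)
  let e : P ≅ (P⟦n⟧)⟦-n⟧ := (shiftEquiv (DerivedCategory X.Modules) n).unitIso.app P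
  have h2 : e.hom ≫ f⟦-n⟧' = 0 := h.eq_zero h1 _
  have h3 : f⟦-n⟧' = 0 := by rw [← cancel_epi e.hom, h2, comp_zero]
  exact (shiftFunctor (DerivedCategory X.Modules) (-n)).map_injective (by rw [h3, Functor.map_zero])

/-- Objects without morphisms to low filtered objects. -/
def KP (X : Scheme.{u}) : ObjectProperty (DerivedCategory X.Modules) := fun P => ∃ c, Kills c P

instance : (KP X).IsClosedUnderIsomorphisms where
  of_iso e h := by
    obtain ⟨c, hc⟩ := h
    exact ⟨c, hc.of_retract (Retract.ofIso e.symm)⟩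

instance : (KP X).ContainsZero where
  exists_zero := ⟨0, isZero_zero _, 0, fun _ _ _ _ _ => (isZero_zero _).eq_of_src _ _⟩

instance : (KP X).IsStableUnderShift ℤ where
  isStableUnderShiftBy n := ⟨fun _ ⟨c, hc⟩ => ⟨c - n, hc.shift n⟩⟩

instance : (KP X).IsTriangulatedClosed₂ := by
  apply ObjectProperty.IsTriangulatedClosed₂.mk'
  rintro T hT ⟨a, ha⟩ ⟨b, hb⟩
  refine ⟨min a b, fun M hM j hj f => ?_⟩
  have h1 : T.mor₁ ≫ f = 0 := ha M hM j (hj.trans (min_le_left _ _)) _
  obtain ⟨g, hg⟩ := Triangle.yoneda_exact₂ _ hT f h1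
  rw [hg, hb M hM j (hj.trans (min_le_right _ _)) g, comp_zero]

instance : (KP X).IsTriangulated where

instance : (KP X).IsStableUnderRetracts where
  of_retract r h := by
    obtain ⟨c, hc⟩ := h
    exact ⟨c, hc.of_retract r⟩

/-- Objects with a finite filtration with coherent pieces. -/
def FP (X : Scheme.{u}) : ObjectProperty (DerivedCategory X.Modules) := fun P => ∃ c, Fil c P

instance : (FP X).IsClosedUnderIsomorphisms where
  of_iso e h := by
    obtain ⟨c, hc⟩ := h
    exact ⟨c, hc.of_iso e.symm⟩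

instance : (FP X).ContainsZero where
  exists_zero := ⟨0, isZero_zero _, 0, Fil.zero _ (isZero_zero _)⟩

instance : (FP X).IsStableUnderShift ℤ where
  isStableUnderShiftBy n := ⟨fun _ ⟨c, hc⟩ => ⟨c - n, hc.shift n⟩⟩

instance : (FP X).IsTriangulatedClosed₂ := by
  apply ObjectProperty.IsTriangulatedClosed₂.mk'
  rintro T hT ⟨a, ha⟩ ⟨b, hb⟩
  exact ⟨max a b, Fil.ext T hT (ha.mono (le_max_left _ _)) (hb.mono (le_max_right _ _)) _
    (Iso.refl _)⟩

instance : (FP X).IsTriangulated where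

lemma fp_single {M : X.Modules} (hM : CohAll M) : FP X (sg M) :=
  ⟨0, Fil.single M hM 0 le_rfl _ ((shiftFunctorZero' (DerivedCategory X.Modules) (-0 : ℤ)
    (by ring)).symm.app _)⟩

/-- The sheaf representing sections over an affine open has no morphisms to coherent modules in
negative degrees. -/
lemma kills_LU {V : X.Opens} (hV : IsAffineOpen V) : Kills (-1) (sg (LU V)) := by
  intro M hM j hj f
  obtain ⟨n, hn⟩ := Int.eq_ofNat_of_zero_le (a := -j - 1) (by lia)
  obtain rfl : j = -((n + 1 : ℕ) : ℤ) := by push_cast; lia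
  have hs : SumOn M V := (hM V hV).1.sumOn
  have key : ∀ (m : ℤ) (hm : m = ((n + 1 : ℕ) : ℤ)) (g : sg (LU V) ⟶ (sg M)⟦m⟧), g = 0 := by
    rintro m rfl g
    exact hom_zero hV hs n g
  exact key _ (neg_neg _) f

lemma kp_LU {V : X.Opens} (hV : IsAffineOpen V) : KP X (sg (LU V)) := ⟨_, kills_LU hV⟩

lemma fp_of_dCoh {E : DerivedCategory X.Modules} (hE : DCoh E) : FP X E := by
  obtain ⟨a, n, h1, h2⟩ := hE.bdd
  exact mem_of_homology (FP X) n E a h1 h2 fun i => fp_single (hE.coh i)

end Pool.Agent.N475.Cusp
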