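import Pool.Agent.R924.P6

/-!
Bounded complexes belong to triangulated subcategories containing their terms.
-/

set_option autoImplicit false

universe w v u

open CategoryTheory Limits Pretriangulated

namespace Pool.Agent.N475.Cusp

open Pool.Agent.R924

noncomputable section

variable {C : Type u} [Category.{v} C] [Abelian C] [HasDerivedCategory.{w} C]

/-- The inclusion of the last term. -/
def lastIn (K : CochainComplex C ℤ) (b : ℤ) (hb : IsZero (K.X (b + 1))) : sc b (K.X b) ⟶ K :=
  HomologicalComplex.mkHomFromSingle (𝟙 _) (fun j hj => by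
    obtain rfl : b + 1 = j := hj
    exact hb.eq_of_tgt _ _)

lemma isIso_lastIn (K : CochainComplex C ℤ) (b : ℤ) (hb : IsZero (K.X (b + 1))) :
    IsIso ((lastIn K b hb).f b) := by
  rw [lastIn, HomologicalComplex.mkHomFromSingle_f, Category.comp_id]
  infer_instance

lemma mono_lastIn_f (K : CochainComplex C ℤ) (b : ℤ) (hb : IsZero (K.X (b + 1))) (i : ℤ) :
    Mono ((lastIn K b hb).f i) := by
  by_cases h : i = b
  · subst h
    have := isIso_lastIn K i hb
    infer_instance
  · have hz : IsZero ((sc b (K.X b)).X i) := HomologicalComplex.isZero_single_obj_X _ _ _ _ h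
    exact ⟨fun _ _ _ => hz.eq_of_tgt _ _⟩

instance mono_lastIn (K : CochainComplex C ℤ) (b : ℤ) (hb : IsZero (K.X (b + 1))) :
    Mono (lastIn K b hb) := by
  have := mono_lastIn_f K b hb
  exact HomologicalComplex.mono_of_mono_f _ this

/-- The short exact sequence of the last term. -/
abbrev lastSC (K : CochainComplex C ℤ) (b : ℤ) (hb : IsZero (K.X (b + 1))) :
    ShortComplex (CochainComplex C ℤ) :=
  ShortComplex.mk (lastIn K b hb) (cokernel.π (lastIn K b hb)) (cokernel.condition _)

lemma lastSC_shortExact (K : CochainComplex C ℤ) (b : ℤ) (hb : IsZero (K.X (b + 1))) :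
    (lastSC K b hb).ShortExact :=
  { exact := ShortComplex.exact_of_g_is_cokernel _ (cokernelIsCokernel _) }

variable (T : ObjectProperty (DerivedCategory C)) [T.IsTriangulated]
  [T.IsClosedUnderIsomorphisms]

theorem Q_mem (n : ℕ) : ∀ (K : CochainComplex C ℤ) (a : ℤ)
    (_ : ∀ i, i < a → IsZero (K.X i)) (_ : ∀ i, a + n ≤ i → IsZero (K.X i))
    (_ : ∀ i, T (sg (K.X i))), T (DerivedCategory.Q.obj K) := by
  induction n with
  | zero =>
    intro K a ha hb _
    have hK : IsZero K := by
      rw [IsZero.iff_id_eq_zero]
      ext i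
      rcases lt_or_ge i a with h | h
      · exact (ha i h).eq_of_src _ _
      · exact (hb i (by simpa using h)).eq_of_src _ _
    exact T.prop_of_isZero (Functor.map_isZero _ hK)
  | succ n ih =>
    intro K a ha hb hT
    have hz : IsZero (K.X (a + n + 1)) := hb _ (by push_cast; lia)
    have hS := lastSC_shortExact K (a + n) hz
    have hSi : ∀ i, ((lastSC K (a + n) hz).map (HomologicalComplex.eval C _ i)).ShortExact :=
      fun i => hS.map_of_exact (HomologicalComplex.eval C _ i)
    have h1 : T (DerivedCategory.Q.obj (sc (a + n) (K.X (a + n)))) :=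
      T.prop_of_iso ((singleIsoShift (K.X (a + n)) (a + n)).symm ≪≫
        (DerivedCategory.singleFunctorIsoCompQ C (a + n)).app _) (T.le_shift _ _ (hT _))
    have hX : ∀ i, i ≠ a + n → IsIso ((cokernel.π (lastIn K (a + n) hz)).f i) := by
      intro i hi
      have hz' : IsZero ((sc (a + n) (K.X (a + n))).X i) :=
        HomologicalComplex.isZero_single_obj_X _ _ _ _ hi
      have := (hSi i).epi_g
      have m1 : Mono ((cokernel.π (lastIn K (a + n) hz)).f i) :=
        (hSi i).exact.mono_g (hz'.eq_of_src _ _)
      have m2 : Epi ((cokernel.π (lastIn K (a + n) hz)).f i) := this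
      exact isIso_of_mono_of_epi _
    have hX' : IsZero ((cokernel (lastIn K (a + n) hz)).X (a + n)) := by
      have e1 := isIso_lastIn K (a + n) hz
      have e2 : Epi ((cokernel.π (lastIn K (a + n) hz)).f (a + n)) := (hSi (a + n)).epi_g
      have e3 : (lastIn K (a + n) hz).f (a + n) ≫
          (cokernel.π (lastIn K (a + n) hz)).f (a + n) = 0 := ((lastSC K (a + n) hz).map
            (HomologicalComplex.eval C _ (a + n))).zero
      have e4 : (cokernel.π (lastIn K (a + n) hz)).f (a + n) = 0 := by
        rw [← cancel_epi ((lastIn K (a + n) hz).f (a + n)), e3, comp_zero]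
      rw [IsZero.iff_id_eq_zero, ← cancel_epi ((cokernel.π (lastIn K (a + n) hz)).f (a + n)), e4,
        zero_comp, zero_comp]
    have h3 : T (DerivedCategory.Q.obj (cokernel (lastIn K (a + n) hz))) := by
      apply ih _ a
      · intro i hi
        have := hX i (by lia)
        exact (ha i hi).of_iso (asIso ((cokernel.π (lastIn K (a + n) hz)).f i)).symm
      · intro i hi
        rcases eq_or_ne i (a + n) with rfl | hne
        · exact hX'
        · have := hX i hne
          exact (hb i (by push_cast; lia)).of_iso
            (asIso ((cokernel.π (lastIn K (a + n) hz)).f i)).symm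
      · intro i
        rcases eq_or_ne i (a + n) with rfl | hne
        · exact T.prop_of_isZero (Functor.map_isZero _ hX')
        · have := hX i hne
          exact mem_iso T (asIso ((cokernel.π (lastIn K (a + n) hz)).f i)) (hT i)
    exact T.ext_of_isTriangulatedClosed₂ _ (DerivedCategory.triangleOfSES_distinguished hS) h1 h3

end

end Pool.Agent.N475.Cusp
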