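import Pool.Agent.N475.Cusp.G2
import Pool.Agent.N475.Cusp.G3

/-!
Restriction followed by extension by zero.
-/

set_option autoImplicit false

universe u

open CategoryTheory Limits TopologicalSpace AlgebraicGeometry Opposite Pretriangulated

namespace Pool.Agent.N475.Cusp

open Pool.Agent.W506 Pool.Agent.W456 Pool.Agent.R924

set_option backward.isDefEq.respectTransparency false

attribute [local instance] HasDerivedCategory.standard Abelian.hasFiniteBiproducts

variable {X : Scheme.{u}}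

/-- Uniqueness of the module representing sections. -/
lemma exists_iso_LU {V : X.Opens} {A : X.Modules} (Φ : ∀ N : X.Modules, (A ⟶ N) ≃ Γ(N, V))
    (hΦ : ∀ (N N' : X.Modules) (f : A ⟶ N) (h : N ⟶ N'), Φ N' (f ≫ h) = ap h V (Φ N f)) :
    Nonempty (A ≅ LU V) := by
  have h1 : ∀ (N : X.Modules) (f : A ⟶ N), Φ N f = ap f V (Φ A (𝟙 A)) := by
    intro N f
    rw [← hΦ, Category.id_comp]
  refine ⟨{ hom := (Φ (LU V)).symm (gen V), inv := secHom (Φ A (𝟙 A)),
            hom_inv_id := ?_, inv_hom_id := ?_ }⟩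
  · apply (Φ A).injective
    rw [hΦ, Equiv.apply_symm_apply, ap_secHom_gen]
  · apply lu_hom_ext
    rw [ap_comp, ap_secHom_gen, ← h1, Equiv.apply_symm_apply, ap_id]

lemma jjE_nat (U : X.Opens) {N N' : X.Modules} (h : N ⟶ N') (V : X.Opens) (s : Γ(jj U N, V)) :
    jjE U N' V (ap ((Scheme.Modules.pushforward U.ι).map
      ((Scheme.Modules.restrictFunctor U.ι).map h)) V s) = ap h (V ⊓ U) (jjE U N V s) := by
  exact (ap_rs h _ _).symm

/-- The functor of restriction followed by extension by zero. -/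
noncomputable abbrev zz (W : X.Opens) : X.Modules ⥤ X.Modules :=
  Scheme.Modules.restrictFunctor W.ι ⋙ extZ W.ι

lemma zz_LU (W V : X.Opens) : Nonempty ((zz W).obj (LU V) ≅ LU (V ⊓ W)) := by
  refine exists_iso_LU (fun N => ((extAdj W.ι).homEquiv _ _).trans
    (((Scheme.Modules.restrictAdjunction W.ι).homEquiv _ _).trans ((luEquiv V _).trans
      (jjE W N V).toEquiv))) ?_
  intro N N' f h
  change jjE W N' V (luEquiv V _ ((Scheme.Modules.restrictAdjunction W.ι).homEquiv _ _
    ((extAdj W.ι).homEquiv _ _ (f ≫ h)))) = ap h (V ⊓ W) (jjE W N V (luEquiv V _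
      ((Scheme.Modules.restrictAdjunction W.ι).homEquiv _ _ ((extAdj W.ι).homEquiv _ _ f))))
  rw [Adjunction.homEquiv_naturality_right, Adjunction.homEquiv_naturality_right, luEquiv_comp]
  exact jjE_nat W h V _

/-- The derived functor of restriction followed by extension by zero. -/
noncomputable abbrev ZD (W : X.Opens) : DerivedCategory X.Modules ⥤ DerivedCategory X.Modules :=
  resD W.ι ⋙ extD W.ι

lemma ZD_sg (W : X.Opens) (M : X.Modules) : Nonempty ((ZD W).obj (sg M) ≅ sg ((zz W).obj M)) := by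
  obtain ⟨a⟩ := mapD_single (Scheme.Modules.restrictFunctor W.ι) M 0
  obtain ⟨b⟩ := mapD_single (extZ W.ι) ((Scheme.Modules.restrictFunctor W.ι).obj M) 0
  exact ⟨(extD W.ι).mapIso a ≪≫ b⟩

lemma ZD_LU (W V : X.Opens) : Nonempty ((ZD W).obj (sg (LU V)) ≅ sg (LU (V ⊓ W))) := by
  obtain ⟨a⟩ := ZD_sg W (LU V)
  obtain ⟨b⟩ := zz_LU W V
  exact ⟨a ≪≫ (DerivedCategory.singleFunctor _ 0).mapIso b⟩

lemma extD_unit (V : X.Opens) :
    Nonempty ((extD V.ι).obj (sg (unitMod V.toScheme)) ≅ sg (LU V)) := by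
  obtain ⟨e⟩ := exists_iso_free (isBasisOn_gen V)
  have e1 : FR V.toScheme 1 ≅ unitMod V.toScheme :=
    Sigma.whiskerEquiv (f := fun _ : ULift.{u} (Fin 1) => unitMod V.toScheme)
      (g := fun _ : Fin 1 => unitMod V.toScheme) Equiv.ulift (fun _ => Iso.refl _) ≪≫
      (biproduct.isoCoproduct (fun _ : Fin 1 => unitMod V.toScheme)).symm ≪≫
      biproductUniqueIso (fun _ : Fin 1 => unitMod V.toScheme)
  obtain ⟨a⟩ := ZD_LU V V
  obtain ⟨b⟩ := mapD_single (Scheme.Modules.restrictFunctor V.ι) (LU V) 0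
  let c : sg (unitMod V.toScheme) ≅ (resD V.ι).obj (sg (LU V)) :=
    (DerivedCategory.singleFunctor _ 0).mapIso (e ≪≫ e1).symm ≪≫ b.symm
  refine ⟨(extD V.ι).mapIso c ≪≫ a ≪≫ eqToIso ?_⟩
  rw [inf_idem]

/-- Extensions by zero of bounded complexes of finite free modules. -/
lemma extD_mem (T : ObjectProperty (DerivedCategory X.Modules)) [T.IsTriangulated]
    [T.IsClosedUnderIsomorphisms] {V : X.Opens} (h : T (sg (LU V)))
    {K : CochainComplex V.toScheme.Modules ℤ} (hK : IsBFF K) :
    T ((extD V.ι).obj (DerivedCategory.Q.obj K)) := by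
  let T' : ObjectProperty (DerivedCategory V.toScheme.Modules) := T.inverseImage (extD V.ι)
  have h1 : T' (sg (unitMod V.toScheme)) := by
    obtain ⟨e⟩ := extD_unit V
    exact T.prop_of_iso e.symm h
  have key : ∀ n : ℕ, T' (sg (⨁ fun _ : Fin n => unitMod V.toScheme)) := by
    intro n
    induction n with
    | zero =>
      apply ObjectProperty.prop_of_isZero
      apply Functor.map_isZero
      rw [IsZero.iff_id_eq_zero]
      ext i
      exact i.elim0
    | succ n ih =>
      refine mem_iso T' (biprodFin (unitMod V.toScheme) n 1) (mem_biprod T' ih ?_)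
      exact mem_iso T' (biproductUniqueIso (fun _ : Fin 1 => unitMod V.toScheme)).symm h1
  have h2 : ∀ i, T' (sg (K.X i)) := by
    intro i
    obtain ⟨n, ⟨e⟩⟩ := hK.2 i
    exact mem_iso T' e.symm (key n)
  obtain ⟨a, b, hab⟩ := hK.1
  exact Q_mem T' (b + 1 - a).toNat K a (fun i hi => hab i (Or.inl hi))
    (fun i hi => hab i (Or.inr (by lia))) h2

end Pool.Agent.N475.Cusp
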