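import Pool.Agent.N475.Cusp.G4

/-!
Perfect complexes have no morphisms to coherent modules in very negative degrees.
-/

set_option autoImplicit false

universe u

open CategoryTheory Limits TopologicalSpace AlgebraicGeometry Opposite Pretriangulated

namespace Pool.Agent.N475.Cusp

open Pool.Agent.W506 Pool.Agent.W456 Pool.Agent.R924

set_option backward.isDefEq.respectTransparency false

attribute [local instance] HasDerivedCategory.standard Abelian.hasFiniteBiproducts

variable {X : Scheme.{u}}

/-- The triangle of an open subset. -/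
theorem exists_tri (U : X.Opens) (A : DerivedCategory X.Modules) :
    ∃ (A' : DerivedCategory X.Modules) (f : (ZD U).obj A ⟶ A) (g : A ⟶ A')
      (h : A' ⟶ ((ZD U).obj A)⟦(1 : ℤ)⟧),
      Triangle.mk f g h ∈ distTriang (DerivedCategory X.Modules) ∧
      (∀ z ∈ U, IsZero ((stD X z).obj A')) ∧
      (∀ z, IsZero ((stD X z).obj A) → IsZero ((stD X z).obj A')) := by
  let adj := dAdj (extAdj U.ι)
  let ε : (extD U.ι).obj ((resD U.ι).obj A) ⟶ A := adj.counit.app A
  obtain ⟨A', ρ, v, hT⟩ := distinguished_cocone_triangle ε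
  refine ⟨A', ε, ρ, v, hT, ?_, ?_⟩
  · intro z hz
    obtain ⟨z, rfl⟩ : z ∈ Set.range U.ι := by
      rw [Scheme.Opens.range_ι U]
      exact hz
    rw [isZero_stD_restrict_iff]
    apply Functor.map_isZero
    have hT' := (resD U.ι).map_distinguished _ hT
    refine (Triangle.isZero₃_iff_isIso₁ _ hT').2 ?_
    have h2 := adj.right_triangle_components A
    have h3 : IsIso (adj.unit.app ((resD U.ι).obj A)) := by
      have : IsIso adj.unit := isIso_dAdj_unit (extAdj U.ι)
      infer_instance
    exact @IsIso.of_isIso_fac_left _ _ _ _ _ _ _ _ h3 (IsIso.id _) h2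
  · intro z hz
    have hT' := (stD X z).map_distinguished _ hT
    by_cases hr : z ∈ Set.range U.ι
    · obtain ⟨z, rfl⟩ := hr
      refine Triangle.isZero₃_of_isZero₁₂ _ hT' ?_ hz
      change IsZero ((stD X (U.ι z)).obj ((extD U.ι).obj ((resD U.ι).obj A)))
      rw [isZero_stD_restrict_iff] at hz ⊢
      exact hz.of_iso ((stD U.toScheme z).mapIso (resExt U.ι ((resD U.ι).obj A)).symm)
    · refine Triangle.isZero₃_of_isZero₁₂ _ hT' ?_ hz
      change IsZero ((stD X z).obj ((extD U.ι).obj ((resD U.ι).obj A)))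
      rw [isZero_mapD_iff]
      intro i
      obtain ⟨e⟩ := mapD_homology (extZ U.ι) ((resD U.ι).obj A) i
      exact (isZero_stalk_ext U.ι (Hh i ((resD U.ι).obj A)) z hr).of_iso ((stalkF X z).mapIso e)

/-- The iterated property. -/
def PS (T : ObjectProperty (DerivedCategory X.Modules)) :
    List X.Opens → ObjectProperty (DerivedCategory X.Modules)
  | [] => T
  | W :: S => (PS T S).inverseImage (ZD W)

theorem PS_inst (T : ObjectProperty (DerivedCategory X.Modules)) [T.IsTriangulated]
    [T.IsClosedUnderIsomorphisms] : ∀ S : List X.Opens,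
      (PS T S).IsTriangulated ∧ (PS T S).IsClosedUnderIsomorphisms
  | [] => ⟨inferInstanceAs T.IsTriangulated, inferInstanceAs T.IsClosedUnderIsomorphisms⟩
  | W :: S => by
    obtain ⟨h1, h2⟩ := PS_inst T S
    exact ⟨inferInstanceAs ((PS T S).inverseImage (ZD W)).IsTriangulated,
      inferInstanceAs ((PS T S).inverseImage (ZD W)).IsClosedUnderIsomorphisms⟩

instance (T : ObjectProperty (DerivedCategory X.Modules)) [T.IsTriangulated]
    [T.IsClosedUnderIsomorphisms] (S : List X.Opens) : (PS T S).IsTriangulated := (PS_inst T S).1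

instance (T : ObjectProperty (DerivedCategory X.Modules)) [T.IsTriangulated]
    [T.IsClosedUnderIsomorphisms] (S : List X.Opens) : (PS T S).IsClosedUnderIsomorphisms :=
  (PS_inst T S).2

theorem glue (T : ObjectProperty (DerivedCategory X.Modules)) [T.IsTriangulated]
    [T.IsClosedUnderIsomorphisms] (l : List X.Opens) : ∀ (l' : List X.Opens)
      (_ : ∀ U ∈ l', U ∈ l) (A : DerivedCategory X.Modules)
      (_ : ∀ W ∈ l, ∀ S : List X.Opens, (∀ V ∈ S, V ∈ l) → PS T (W :: S) A)
      (_ : ∀ z : X, (∀ U ∈ l', z ∉ U) → IsZero ((stD X z).obj A)), T A := by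
  intro l'
  induction l' with
  | nil =>
    intro _ A _ hz
    exact T.prop_of_isZero (isZero_of_stD A fun z => hz z (by simp))
  | cons U l' ih =>
    intro hl A hA hz
    obtain ⟨A', f, g, h, hT, h1, h2⟩ := exists_tri U A
    have hU : U ∈ l := hl U (List.mem_cons_self ..)
    have t1 : T ((ZD U).obj A) := hA U hU [] (by simp)
    have t3 : T A' := by
      refine ih (fun V hV => hl V (List.mem_cons_of_mem _ hV)) A' ?_ ?_
      · intro W hW S hS
        exact (PS T (W :: S)).ext_of_isTriangulatedClosed₃ _ hT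
          (hA U hU (W :: S) (by
            intro V hV
            rcases List.mem_cons.1 hV with rfl | hV
            · exact hW
            · exact hS V hV)) (hA W hW S hS)
      · intro z hz'
        by_cases hzU : z ∈ U
        · exact h1 z hzU
        · apply h2
          apply hz
          intro V hV
          rcases List.mem_cons.1 hV with rfl | hV
          · exact hzU
          · exact hz' V hV
    exact T.ext_of_isTriangulatedClosed₂ _ hT t1 t3

variable {J : Type} {F : Frame X J} {α : F.Div}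

/-- Basic opens of the charts. -/
def Bas (F : Frame X J) (V : X.Opens) : Prop := ∃ (j : J) (f : Γ(X, F.U j)), X.basicOpen f = V

lemma Bas.aff (A : Frame.Ample F α) {V : X.Opens} (h : Bas F V) : IsAffineOpen V := by
  obtain ⟨j, f, rfl⟩ := h
  exact (A.aff j).basicOpen f

lemma Bas.inf (A : Frame.Ample F α) {V W : X.Opens} (hV : Bas F V) (hW : Bas F W) :
    Bas F (V ⊓ W) := by
  obtain ⟨i, f, rfl⟩ := hV
  obtain ⟨j, g, rfl⟩ := hW
  have hc : X.basicOpen (A.co i j) = F.U i ⊓ F.U j := A.basicOpen_co i j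
  have hle : X.basicOpen (A.co i j) ≤ F.U j := by rw [hc]; exact inf_le_right
  obtain ⟨g', hg'⟩ := (A.aff i).basicOpen_basicOpen_is_basicOpen (A.co i j) (ro hle g)
  refine ⟨i, f * g', ?_⟩
  rw [X.basicOpen_mul, hg', basicOpen_ro, hc]
  apply le_antisymm
  · exact le_inf inf_le_left (inf_le_right.trans inf_le_right)
  · refine le_inf inf_le_left (le_inf (le_inf ?_ ?_) inf_le_right)
    · exact inf_le_left.trans (X.basicOpen_le f)
    · exact inf_le_right.trans (X.basicOpen_le g)

lemma PS_LU (A : Frame.Ample F α) : ∀ (S : List X.Opens) (_ : ∀ V ∈ S, Bas F V) (V : X.Opens)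
    (_ : Bas F V), PS (KP X) S (sg (LU V))
  | [], _, V, hV => kp_LU (hV.aff A)
  | W :: S, hS, V, hV => by
    obtain ⟨e⟩ := ZD_LU W V
    exact (PS (KP X) S).prop_of_iso e.symm (PS_LU A S (fun V hV =>
      hS V (List.mem_cons_of_mem _ hV)) (V ⊓ W) (hV.inf A (hS W (List.mem_cons_self ..))))

/-- Local free models on basic opens of the charts. -/
lemma exists_bas (A : Frame.Ample F α) {E : DerivedCategory X.Modules} (hE : isPerfect X E)
    (x : X) : ∃ V : X.Opens, x ∈ V ∧ Bas F V ∧ ∃ K : CochainComplex V.toScheme.Modules ℤ,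
      IsBFF K ∧ Nonempty ((resD V.ι).obj E ≅ DerivedCategory.Q.obj K) := by
  obtain ⟨W, g, hg, w, hw, K, hK, ⟨e⟩⟩ := isPerfect.exists_free hE x
  obtain ⟨j, hj⟩ := F.cover x
  have hx : x ∈ g.opensRange := ⟨w, hw⟩
  obtain ⟨f, hle, hxf⟩ := (A.aff j).exists_basicOpen_le (V := g.opensRange) ⟨x, hx⟩ hj
  let V : X.Opens := X.basicOpen f
  have hr : Set.range V.ι ⊆ Set.range g := by
    rw [Scheme.Opens.range_ι V]
    exact hle
  let h : V.toScheme ⟶ W := IsOpenImmersion.lift g V.ι hr
  have hh : h ≫ g = V.ι := IsOpenImmersion.lift_fac g V.ι hr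
  have : IsOpenImmersion (h ≫ g) := by rw [hh]; infer_instance
  have hoi : IsOpenImmersion h := IsOpenImmersion.of_comp h g
  obtain ⟨i⟩ := resD_comp h g V.ι hh E
  exact ⟨V, hxf, ⟨j, f, rfl⟩, _, bff_res h hK, ⟨i.symm ≪≫ (resD h).mapIso e ≪≫
    (Scheme.Modules.restrictFunctor h).mapDerivedCategoryFactors.app K⟩⟩

/-- Perfect complexes have no morphisms to coherent modules in very negative degrees. -/
theorem kp_of_isPerfect [CompactSpace X] (A : Frame.Ample F α) {E : DerivedCategory X.Modules}
    (hE : isPerfect X E) : KP X E := by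
  classical
  choose V hxV hV K hK e using exists_bas A hE
  obtain ⟨t, ht⟩ := isCompact_univ.elim_finite_subcover (fun x : X => (V x : Set X))
    (fun x => (V x).isOpen) (fun x _ => Set.mem_iUnion.2 ⟨x, hxV x⟩)
  refine glue (KP X) (t.toList.map V) (t.toList.map V) (fun _ h => h) E ?_ ?_
  · intro W hW S hS
    obtain ⟨x, -, rfl⟩ := List.mem_map.1 hW
    obtain ⟨i⟩ := e x
    change PS (KP X) S ((extD (V x).ι).obj ((resD (V x).ι).obj E))
    refine (PS (KP X) S).prop_of_iso ((extD (V x).ι).mapIso i.symm) ?_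
    refine extD_mem (PS (KP X) S) (PS_LU A S ?_ (V x) (hV x)) (hK x)
    intro V' hV'
    obtain ⟨y, -, rfl⟩ := List.mem_map.1 (hS V' hV')
    exact hV y
  · intro z hz
    exfalso
    obtain ⟨y, hy⟩ := Set.mem_iUnion.1 (ht (Set.mem_univ z))
    obtain ⟨hyt, hzy⟩ := Set.mem_iUnion.1 hy
    exact hz (V y) (List.mem_map.2 ⟨y, by simpa using hyt, rfl⟩) hzy

end Pool.Agent.N475.Cusp
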